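import Pool.Agent.Helper31.CY.St4

set_option autoImplicit false

open Set Topology Filter

namespace Pool.Agent.Helper16.CY

open Pool.Agent.Helper31.CY

private theorem pt0 (a b c : ℝ) : pt a b c 0 = a := by simp [pt]
private theorem pt1 (a b c : ℝ) : pt a b c 1 = b := by simp [pt]
private theorem pt2 (a b c : ℝ) : pt a b c 2 = c := by simp [pt]

private theorem cat_contDiff (ρ m z0 : ℝ) : ContDiff ℝ 1 (fun t : ℝ => cat ρ m (t - z0)) := by
  unfold cat
  refine contDiff_const.mul (Real.contDiff_cosh.comp ?_)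
  exact (((contDiff_id.sub contDiff_const).mul contDiff_const).div_const _).add contDiff_const

private theorem coord_contDiff (i : Fin 3) : ContDiff ℝ 1 (fun x : E3 => x i) :=
  (EuclideanSpace.proj i : E3 →L[ℝ] ℝ).contDiff

private theorem coord_hasFDerivAt (i : Fin 3) (p : E3) :
    HasFDerivAt (fun x : E3 => x i) (EuclideanSpace.proj i : E3 →L[ℝ] ℝ) p :=
  (EuclideanSpace.proj i : E3 →L[ℝ] ℝ).hasFDerivAt

/-- XB1: boundary points of catenoids. -/
theorem hXB1 : StXB1 := by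
  intro S p ρ m z0 ε σ hρ hp hε hσ hrad hS
  have hq : ContDiff ℝ 1 (fun x : E3 => x 0 ^ 2 + x 1 ^ 2) :=
    ((coord_contDiff 0).pow 2).add ((coord_contDiff 1).pow 2)
  let Φ : E3 → E3 := fun x => pt (σ * (x 2 - p 2)) (rad x - cat ρ m (x 2 - z0))
    (-(p 1) * x 0 + p 0 * x 1)
  let U : Set E3 := Metric.ball p ε ∩ {x : E3 | 0 < x 0 ^ 2 + x 1 ^ 2}
  have hUo : IsOpen U := Metric.isOpen_ball.inter (isOpen_lt continuous_const hq.continuous)
  have hpU : p ∈ U := ⟨Metric.mem_ball_self hε, hp⟩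
  have f0 : ∀ x, Φ x 0 = σ * (x 2 - p 2) := fun x => pt0 _ _ _
  have f1 : ∀ x, Φ x 1 = rad x - cat ρ m (x 2 - z0) := fun x => pt1 _ _ _
  have f2 : ∀ x, Φ x 2 = -(p 1) * x 0 + p 0 * x 1 := fun x => pt2 _ _ _
  have hcat : ContDiff ℝ 1 (fun x : E3 => cat ρ m (x 2 - z0)) :=
    (cat_contDiff ρ m z0).comp (coord_contDiff 2)
  have hsm : ContDiffOn ℝ 1 Φ U := by
    rw [contDiffOn_euclidean]
    intro i
    fin_cases i
    · refine (contDiff_const.mul ((coord_contDiff 2).sub contDiff_const)).contDiffOn.congr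
        (f := fun x => σ * (x 2 - p 2)) fun x _ => ?_
      exact f0 x
    · refine ContDiffOn.congr (f := fun x => rad x - cat ρ m (x 2 - z0)) ?_ fun x _ => f1 x
      refine ContDiffOn.sub ?_ hcat.contDiffOn
      unfold rad
      exact hq.contDiffOn.sqrt fun x hx => ne_of_gt hx.2
    · refine ((contDiff_const.mul (coord_contDiff 0)).add
        (contDiff_const.mul (coord_contDiff 1))).contDiffOn.congr
        (f := fun x => -(p 1) * x 0 + p 0 * x 1) fun x _ => ?_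
      exact f2 x
  have hd : HasFDerivAt Φ (fderiv ℝ Φ p) p :=
    ((hsm.contDiffAt (hUo.mem_nhds hpU)).differentiableAt (by norm_num)).hasFDerivAt
  have hcomp : ∀ i, HasFDerivAt (fun x => Φ x i)
      ((EuclideanSpace.proj i : E3 →L[ℝ] ℝ).comp (fderiv ℝ Φ p)) p := fun i =>
    (EuclideanSpace.proj i : E3 →L[ℝ] ℝ).hasFDerivAt.comp p hd
  have radpos : 0 < rad p := Real.sqrt_pos.2 hp
  obtain ⟨c, hc⟩ : ∃ c : ℝ, HasDerivAt (fun t : ℝ => cat ρ m (t - z0)) c (p 2) :=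
    ⟨_, ((cat_contDiff ρ m z0).differentiable (by norm_num) (p 2)).hasDerivAt⟩
  have g0 : HasFDerivAt (fun x => Φ x 0) (σ • (EuclideanSpace.proj 2 : E3 →L[ℝ] ℝ)) p := by
    have h := ((coord_hasFDerivAt 2 p).sub_const (p 2)).const_mul σ
    exact h
  have g1 : HasFDerivAt (fun x => Φ x 1)
      ((1 / (2 * rad p)) • ((2 * p 0) • (EuclideanSpace.proj 0 : E3 →L[ℝ] ℝ) +
        (2 * p 1) • (EuclideanSpace.proj 1 : E3 →L[ℝ] ℝ)) -
        c • (EuclideanSpace.proj 2 : E3 →L[ℝ] ℝ)) p := by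
    have h1 : HasFDerivAt (fun x : E3 => x 0 ^ 2 + x 1 ^ 2)
        ((2 * p 0) • (EuclideanSpace.proj 0 : E3 →L[ℝ] ℝ) +
        (2 * p 1) • (EuclideanSpace.proj 1 : E3 →L[ℝ] ℝ)) p := by
      have a0 := (coord_hasFDerivAt 0 p).pow 2
      have a1 := (coord_hasFDerivAt 1 p).pow 2
      have h : HasFDerivAt (fun x : E3 => x 0 ^ 2 + x 1 ^ 2) _ p := a0.add a1
      refine h.congr_fderiv ?_
      simp
    have h2 := h1.sqrt hp.ne'
    have h3 := hc.comp_hasFDerivAt p (coord_hasFDerivAt 2 p)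
    exact h2.sub h3
  have g2 : HasFDerivAt (fun x => Φ x 2)
      ((-(p 1)) • (EuclideanSpace.proj 0 : E3 →L[ℝ] ℝ) +
        (p 0) • (EuclideanSpace.proj 1 : E3 →L[ℝ] ℝ)) p :=
    ((coord_hasFDerivAt 0 p).const_mul _).add ((coord_hasFDerivAt 1 p).const_mul _)
  refine ⟨Φ, U, hUo, hpU, hsm, ?_, ?_, ?_⟩
  · show pt (σ * (p 2 - p 2)) (rad p - cat ρ m (p 2 - z0)) (-(p 1) * p 0 + p 0 * p 1) = 0
    rw [hrad, sub_self, sub_self, mul_zero]
    ext i
    fin_cases i
    · exact pt0 _ _ _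
    · exact pt1 _ _ _
    · refine (pt2 _ _ _).trans ?_
      show -(p 1) * p 0 + p 0 * p 1 = 0
      ring
  · intro v hv h0
    apply hv
    have z : ∀ i, (fderiv ℝ Φ p v) i = 0 := fun i => by rw [h0]; rfl
    have e0 : (fderiv ℝ Φ p v) 0 = σ * v 2 :=
      congrArg (fun L : E3 →L[ℝ] ℝ => L v) ((hcomp 0).unique g0)
    have e1 : (fderiv ℝ Φ p v) 1 =
        1 / (2 * rad p) * (2 * p 0 * v 0 + 2 * p 1 * v 1) - c * v 2 :=
      congrArg (fun L : E3 →L[ℝ] ℝ => L v) ((hcomp 1).unique g1)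
    have e2 : (fderiv ℝ Φ p v) 2 = -(p 1) * v 0 + p 0 * v 1 :=
      congrArg (fun L : E3 →L[ℝ] ℝ => L v) ((hcomp 2).unique g2)
    rw [z] at e0 e1 e2
    have v2 : v 2 = 0 := by
      rcases hσ with h | h <;> rw [h] at e0 <;> linarith
    rw [v2, mul_zero, sub_zero] at e1
    have e1' : p 0 * v 0 + p 1 * v 1 = 0 := by
      have h5 : (1 / (2 * rad p)) ≠ 0 := by positivity
      have h6 := (mul_eq_zero.1 e1.symm).resolve_left h5
      linarith
    have hsum : (p 0 ^ 2 + p 1 ^ 2) ≠ 0 := hp.ne'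
    have v0 : v 0 = 0 := by
      have : (p 0 ^ 2 + p 1 ^ 2) * v 0 = 0 := by
        linear_combination p 0 * e1' + p 1 * e2
      exact (mul_eq_zero.1 this).resolve_left hsum
    have v1 : v 1 = 0 := by
      have : (p 0 ^ 2 + p 1 ^ 2) * v 1 = 0 := by
        linear_combination p 1 * e1' - p 0 * e2
      exact (mul_eq_zero.1 this).resolve_left hsum
    ext i
    fin_cases i
    · exact v0
    · exact v1
    · exact v2
  · intro x hx
    rw [f0, f1, sub_eq_zero]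
    exact hS x hx.1

end Pool.Agent.Helper16.CY
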